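import Pool.Agent.H635.RF.Fin

/-!
# Rapid Raisonnier filters do not give dominating reals

There is a model of ZFC in which the Raisonnier filter of `2^ω ∩ L[a]` is rapid for every real
`a`, but no real dominates the reals of `L`.

The proof. Let `M` be a countable transitive model of `V = L`. The model is the extension of `M` by
a finite support iteration of length `ω₁`. Each block adds, for every name `t` of a function
`b ∈ ω^ω`, a slalom that captures all functions of the current model that are bounded by `b`; a
condition consists of a finite part of the slalom, together with the information on the values of
`b` at the places of its domain, and of a finite set of promises, which are names of arbitrary
functions and which are only kept where their values are below the values of `b`. This version of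
the forcing preserves the unboundedness of the ground model functions: if the conditions `p j` have
a common root, then there is a condition that forces that infinitely many of them are in the
generic filter. For this, the promises are decoded by compactness: the values of the promises below
`b` are bounded, so the promises of the `p j` have a limit point, which has a name.
-/

set_option autoImplicit false

namespace Pool.Agent.Results.MP_0d94a4_lc.RapidWithoutDominating

open Pool.Agent.W868
open Pool.Agent.H635.RF

/-- There is a countable transitive model `N` of ZFC such that in `N` the Raisonnier filter of
`2^ω ∩ L[a]` is rapid for every real `a`, but for some real `a` no real dominates the reals of
`L[a]`. -/
theorem result : ∃ N : Set ZFSet.{0}, N.Countable ∧ IsZFC N ∧ StR N ∧ ¬ StD N := exists_model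

end Pool.Agent.Results.MP_0d94a4_lc.RapidWithoutDominating
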